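import Pool.Agent.Lib.QE.Main
import Pool.Agent.Lib.MP_a54f13_nt.Ev.Que

/-!
# MP_a54f13_nt: the even moments of Hecke–Maass forms

For every sequence of real valued normalised Hecke–Maass cusp forms `f_i` with `t_i → ∞` and every
nonnegative `ψ ∈ C_c^∞(X)`, without any hypothesis:

(1) the numbers `s_k = 2^k ∫ ψ f_i^(2k) / binom(2k, k)` are asymptotically log-convex in `k`;
(2) `liminf ∫ ψ f_i^(2k) ≥ (1/2) binom(2k, k) ∫ ψ` for every `k ≥ 2`.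

The constants in (2) are `3, 10, 35, 126, …`; the conjecture has `3, 15, 105, 945, …`.
-/

set_option autoImplicit false

namespace Pool.Agent.Results.MP_a54f13_nt.EvenMoments

open MeasureTheory Filter Topology Set Pool.Agent.A54
open scoped ContDiff ComplexConjugate UpperHalfPlane MatrixGroups

theorem result (f : ℕ → ℍ → ℝ) (t : ℕ → ℝ) (hf : ∀ i, IsHeckeMaass (f i) (t i))
    (ht : Tendsto t atTop atTop) (ψ : ℍ → ℝ) (hψ : TestX ψ) (hψ0 : ∀ z, 0 ≤ ψ z)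
    (s : ℕ → ℕ → ℝ)
    (hs : ∀ k i, s k i =
      2 ^ k * (∫ z in ModularGroup.fdo, ψ z * f i z ^ (2 * k)) / ((2 * k).choose k : ℝ)) :
    (∀ (k : ℕ) (B ε : ℝ), 0 < ε → ∀ᶠ i in atTop,
      s (k + 2) i ≤ B → s (k + 1) i ^ 2 ≤ s k i * s (k + 2) i + ε) ∧
    (∀ (k : ℕ) (ε : ℝ), 2 ≤ k → 0 < ε → ∀ᶠ i in atTop,
      ((2 * k).choose k : ℝ) / 2 * (∫ z in ModularGroup.fdo, ψ z) - ε ≤
        ∫ z in ModularGroup.fdo, ψ z * f i z ^ (2 * k)) :=
  ⟨fun k B ε hε => Ev.logc hf ht hψ hψ0 s hs k B ε hε,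
    fun k ε hk hε => Ev.even_of_two hf ht hψ hψ0 (QE.queAll f t hf ht ψ hψ) k (by omega) ε hε⟩

end Pool.Agent.Results.MP_a54f13_nt.EvenMoments
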