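import Pool.Agent.Lib.HS.R.All
import Pool.Agent.Lib.HS.Fin
import Pool.Agent.Lib.QE.Main

/-!
# MP_a54f13_nt: the cases `n ≤ 4` of the conjecture

For every sequence of real valued normalised Hecke–Maass cusp forms `f_i` with `t_i → ∞`, without
any hypothesis:

(1) `∫ ψ f_i^n → C_n ∫ ψ` for `n = 1, 2, 3, 4` and every test function `ψ`;
(2) the mean of `f_i²` over the hyperbolic ball `B(z, r_i)` tends to `1` in mean square over
    every compact set of centres `z`, for all radii `r_i → 0` with `r_i t_i → ∞`;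
(3) at the radii `R / t_i` this holds up to an error which is small when `R` is large.
-/

set_option autoImplicit false

namespace Pool.Agent.Results.MP_a54f13_nt.FirstFourMoments

open MeasureTheory Filter Topology Set Pool.Agent.A54
open scoped ContDiff ComplexConjugate UpperHalfPlane MatrixGroups

theorem result (f : ℕ → ℍ → ℝ) (t : ℕ → ℝ) (hf : ∀ i, IsHeckeMaass (f i) (t i))
    (ht : Tendsto t atTop atTop) :
    (∀ ψ : ℍ → ℝ, TestX ψ → ∀ n : ℕ, 1 ≤ n → n ≤ 4 →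
      Tendsto (fun i => ∫ z in ModularGroup.fdo, ψ z * f i z ^ n) atTop
        (𝓝 (1 / √(2 * Real.pi) * (∫ x : ℝ, x ^ n * Real.exp (-x ^ 2 / 2)) *
          ∫ z in ModularGroup.fdo, ψ z))) ∧
    (∀ K : Set ℍ, IsCompact K → ∀ r : ℕ → ℝ, (∀ i, 0 < r i) → Tendsto r atTop (𝓝 0) →
      Tendsto (fun i => r i * t i) atTop atTop →
        Tendsto (fun i => ∫ z in K, ((⨍ w in Metric.ball z (r i), f i w ^ 2) - 1) ^ 2)
          atTop (𝓝 0)) ∧
    (∀ K : Set ℍ, IsCompact K → ∀ ε : ℝ, 0 < ε → ∃ R : ℝ, 0 < R ∧ ∀ᶠ i in atTop,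
      ∫ z in K, ((⨍ w in Metric.ball z (R / t i), f i w ^ 2) - 1) ^ 2 ≤ ε) := by
  obtain ⟨-, -, h3⟩ := HR.allH HS.stmtHS f t hf ht
  have h0 := QE.queAll f t hf ht
  exact ⟨(h3.out 0 2).1 h0, (h3.out 0 3).1 h0, (h3.out 0 4).1 h0⟩

end Pool.Agent.Results.MP_a54f13_nt.FirstFourMoments
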