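import Pool.Agent.Lib.MP_a54f13_nt.Sq.Tf

/-!
# MP_a54f13_nt: the fourth moment of every form and its masses in balls of radius `t^(-1/2-δ)`

For every `δ > 0` and every nonnegative `φ ∈ C_c^∞(ℍ)` there are a compact set `K ⊆ ℍ`, `C` and `κ > 0`
such that for every Hecke–Maass cusp form `f` with `t_f ≥ 1` and every `0 < r ≤ t_f^(-1/2-δ)`:
`∫ φ f⁴ ≤ 3 ∫ φ(z) (⨍_{B(z,r)} f²)² dμ(z) + C t_f^(-κ) (1 + ∫_K (⨍_{B(z,r)} f²)² dμ(z))`.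
-/

set_option autoImplicit false

namespace Pool.Agent.Results.MP_a54f13_nt.LocalMassBound

open MeasureTheory Filter Topology Set Pool.Agent.A54
open scoped ContDiff ComplexConjugate UpperHalfPlane MatrixGroups

theorem result (δ : ℝ) (hδ : 0 < δ) (φ : ℂ → ℝ) (hφ : ContDiff ℝ ∞ φ) (hc : HasCompactSupport φ)
    (hs : tsupport φ ⊆ {z : ℂ | 0 < z.im}) (h0 : ∀ z, 0 ≤ φ z) :
    ∃ (K : Set ℍ) (C κ : ℝ), IsCompact K ∧ 0 < κ ∧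
      ∀ (f : ℍ → ℝ) (t r : ℝ), IsHeckeMaass f t → 1 ≤ t → 0 < r → r ≤ t ^ (-(1 / 2 + δ)) →
        ∫ z : ℍ, φ z * f z ^ 4 ≤
          3 * (∫ z : ℍ, φ z * (⨍ w in Metric.ball z r, f w ^ 2) ^ 2) +
            C * t ^ (-κ) * (1 + ∫ z in K, (⨍ w in Metric.ball z r, f w ^ 2) ^ 2) :=
  Sq.pSgH δ φ hδ ⟨⟨hφ, hc, hs⟩, h0⟩

end Pool.Agent.Results.MP_a54f13_nt.LocalMassBound
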