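import Pool.Agent.Lib.HS.R.All
import Pool.Agent.Lib.HS.Fin
import Pool.Agent.Lib.QE.Main
import Pool.Agent.Lib.MP_a54f13_nt.Vd.Top
import Pool.Agent.Lib.MP_a54f13_nt.Vd.UMain

/-!
# MP_a54f13_nt: the value distribution of Hecke–Maass forms

For every sequence of real valued normalised Hecke–Maass cusp forms `f_i` with `t_i → ∞` and every
nonnegative `ψ ∈ C_c^∞(X)`, `ψ ≠ 0`, without any hypothesis:

(1) along a subsequence the laws of the `f_i` under the measure `ψ dμ` converge weakly;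
(2) let the laws of the `f_i` converge weakly to `ν`. Then `∫ ψ g(f_i) → ∫ g dν` for all continuous
    `g` with `g(x) = O(1 + x⁴)`, the first four moments of `ν` are those of the Gaussian law (times
    `∫ ψ`), and there is an open interval `J ⊇ [-1, 1]` (bounded or not) such that `ν` and the
    Lebesgue measure on `J` have the same null sets; if `J ⊆ [a, b]` then `- a b ≥ 3`.
-/

set_option autoImplicit false

namespace Pool.Agent.Results.MP_a54f13_nt.ValueDistribution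

open MeasureTheory Filter Topology Set Pool.Agent.A54
open scoped ContDiff ComplexConjugate UpperHalfPlane MatrixGroups

theorem result (f : ℕ → ℍ → ℝ) (t : ℕ → ℝ) (hf : ∀ i, IsHeckeMaass (f i) (t i))
    (ht : Tendsto t atTop atTop) (ψ : ℍ → ℝ) (hψ : TestX ψ) (hψ0 : ∀ z, 0 ≤ ψ z)
    (hp : 0 < ∫ z in ModularGroup.fdo, ψ z) :
    (∃ (σ : ℕ → ℕ) (ν : Measure ℝ), StrictMono σ ∧ Vd.Law (fun i => f (σ i)) ψ ν) ∧
    ∀ ν : Measure ℝ, Vd.Law f ψ ν →
      (∀ g : ℝ → ℝ, Continuous g → (∃ C : ℝ, ∀ x, |g x| ≤ C * (1 + x ^ 4)) →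
        Tendsto (fun i => ∫ z in ModularGroup.fdo, ψ z * g (f i z)) atTop (𝓝 (∫ x, g x ∂ν))) ∧
      (∀ n : ℕ, n ≤ 4 → ∫ x, x ^ n ∂ν =
        1 / √(2 * Real.pi) * (∫ x : ℝ, x ^ n * Real.exp (-x ^ 2 / 2)) *
          ∫ z in ModularGroup.fdo, ψ z) ∧
      ∃ J : Set ℝ, IsOpen J ∧ J.OrdConnected ∧ Icc (-1) 1 ⊆ J ∧
        (∀ a b : ℝ, J ⊆ Icc a b → 3 ≤ -(a * b)) ∧
        ∀ A : Set ℝ, MeasurableSet A → (ν A = 0 ↔ volume (A ∩ J) = 0) := by
  obtain ⟨h4, -, h3⟩ := HR.allH HS.stmtHS f t hf ht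
  exact Vd.core Vd.pFinU f t hf ht h4 ((h3.out 0 2).1 (QE.queAll f t hf ht)) ψ hψ hψ0 hp

end Pool.Agent.Results.MP_a54f13_nt.ValueDistribution
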